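import Pool.Agent.Helper34.LL.Defs2
import Pool.Agent.Helper34.LL.E

/-!
# Post's tag system (MP_41f897_lc), module LD2: fluctuations for a fixed profile
-/

set_option autoImplicit false

namespace Pool.Agent.Helper33.LL

open Pool.Agent.Helper34.LL Pool.Agent.Helper34.SD Pool.Agent.Helper34.PT

private theorem bin_le (W : List Bool) : (bin W).length ≤ 4 * W.length := by
  induction W with
  | nil => simp [bin]
  | cons c W ih => cases c <;> simp [bin] <;> omega

private theorem secs_nil (v : List (Fin 3)) : secs [] v = [] := by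
  induction v with
  | nil => rfl
  | cons s v ih => exact ih

private theorem FF_nil (v : List (Fin 3)) : FF v [] = 0 := by
  unfold FF
  cases v with
  | nil => rfl
  | cons s v =>
    show (bin (secs (rsec [] s) v)).length = 0
    have h : rsec [] s = [] := rfl
    rw [h, secs_nil]
    rfl

private theorem FF_append (v : List (Fin 3)) (U W : List Bool) :
    FF v (U ++ W) = FF v U + FF (ract v U) W := by
  unfold FF
  rw [rsecs_append, bin_append, List.length_append]

/-- the space of profiles -/
private abbrev XX (T : ℕ) : Type := List.Vector (Fin 3) (T + 1)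

private def mv (T : ℕ) (x : XX T) (b : Bool) : XX T :=
  ⟨ract x.toList [b], by rw [ract_length, x.toList_length]⟩

private theorem mv_toList (T : ℕ) (x : XX T) (b : Bool) : (mv T x b).toList = ract x.toList [b] := rfl

private theorem mv_inj (T : ℕ) (b : Bool) : Function.Injective (fun x : XX T => mv T x b) := by
  intro x y h
  have h1 := congrArg List.Vector.toList h
  simp only [mv_toList] at h1
  exact List.Vector.toList_injective (ract_inj [b] h1)

private noncomputable def pp (T : ℕ) (b : Bool) : Equiv.Perm (XX T) :=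
  Equiv.ofBijective (fun x => mv T x b) (Finite.injective_iff_bijective.1 (mv_inj T b))

private theorem pp_apply (T : ℕ) (b : Bool) (x : XX T) : pp T b x = mv T x b := rfl

private theorem pow_toList (T : ℕ) (x : XX T) (k : ℕ) :
    (((pp T false) ^ k) x).toList = ract x.toList (zr k) := by
  induction k with
  | zero =>
    have hx : x.toList ≠ [] := by
      intro h
      have := x.toList_length
      rw [h] at this
      simp at this
    show x.toList = ract x.toList []
    have h1 : ract x.toList (zr (3 ^ (T + 1) * 0)) = x.toList :=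
      ract_zr_mul x.toList (T + 1) (by rw [x.toList_length]) 0
    exact h1.symm
  | succ k ih =>
    have e : zr (k + 1) = zr k ++ [false] := zr_add k 1
    rw [pow_succ', Equiv.Perm.mul_apply, pp_apply, mv_toList, ih, e, ract_append]

private theorem trans (T : ℕ) (x y : XX T) : ∃ k : ℕ, ((pp T false) ^ k) x = y := by
  have hinj : Function.Injective (fun k : Fin (3 ^ (T + 1)) => ((pp T false) ^ (k : ℕ)) x) := by
    intro i j h
    have h1 := congrArg List.Vector.toList h
    simp only [pow_toList] at h1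
    have h2 := ract_zr_inj _ h1
    rw [x.toList_length] at h2
    exact Fin.ext (h2.eq_of_lt_of_lt i.isLt j.isLt)
  have hcard : Fintype.card (Fin (3 ^ (T + 1))) = Fintype.card (XX T) := by
    rw [Fintype.card_fin, card_vector, Fintype.card_fin]
  have hbij := (Fintype.bijective_iff_injective_and_card _).2 ⟨hinj, hcard⟩
  obtain ⟨k, hk⟩ := hbij.2 y
  exact ⟨k, hk⟩

private theorem FF_le (T : ℕ) (x : List (Fin 3)) (hx : x.length = T + 1) (b : Bool) :
    FF x [b] ≤ 4 * 2 ^ T := by
  cases x with
  | nil => simp at hx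
  | cons s v =>
    have hv : v.length = T := by simpa using hx
    have h1 := secs_length_le v (rsec [b] s)
    have h2 := rsec_length [b] s
    have h3 : 2 ^ v.length * (rsec [b] s).length ≤ 2 ^ T * 1 := by
      rw [hv]
      exact Nat.mul_le_mul_left _ h2
    have h4 := bin_le (secs (rsec [b] s) v)
    show (bin (secs (rsec [b] s) v)).length ≤ _
    omega

/-- moving along a word -/
private def mvs (T : ℕ) : XX T → List Bool → XX T
  | x, [] => x
  | x, b :: w => mvs T (mv T x b) w

private theorem Phi_eq (T : ℕ) (g : XX T → ℝ) (w : List Bool) : ∀ x : XX T,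
    Phi (mv T) (fun x b => (FF x.toList [b] : ℝ) - 1 + g (mv T x b) - g x) x w =
      (FF x.toList w : ℝ) - w.length + g (mvs T x w) - g x := by
  induction w with
  | nil =>
    intro x
    simp [Phi, mvs, FF_nil]
  | cons b w ih =>
    intro x
    have e : FF x.toList (b :: w) = FF x.toList [b] + FF (mv T x b).toList w :=
      FF_append x.toList [b] w
    simp only [Phi, mvs]
    rw [ih, e, List.length_cons]
    push_cast
    ring

theorem hLD2 : Stmt_LA2 → Stmt_LB → Stmt_LC → Stmt_LD2 := by
  intro hA hB hC T n a ha x hx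
  have h2T : (1 : ℝ) ≤ 2 ^ T := one_le_pow₀ (by norm_num)
  have h18 : (2 : ℝ) ^ T ≤ 18 ^ T := pow_le_pow_left₀ (by norm_num) (by norm_num) T
  have hFF : ∀ (x : XX T) (b : Bool), (FF x.toList [b] : ℝ) ≤ 4 * 2 ^ T := by
    intro x b
    exact_mod_cast FF_le T x.toList x.toList_length b
  have hFF0 : ∀ (x : XX T) (b : Bool), (0 : ℝ) ≤ (FF x.toList [b] : ℝ) := fun _ _ => Nat.cast_nonneg _
  have hcard : (Fintype.card (XX T) : ℝ) = 3 ^ (T + 1) := by
    rw [card_vector, Fintype.card_fin]
    push_cast
    rfl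
  -- the Poisson equation
  obtain ⟨g, hg, hgb⟩ := hA (XX T) (pp T false) (pp T true)
    (fun x => ((FF x.toList [false] : ℝ) + FF x.toList [true]) / 2 - 1) (4 * 2 ^ T)
    (trans T) (by
      have h := hC T
      have h' : ∑ x : XX T, ((FF x.toList [false] : ℝ) + FF x.toList [true]) = 2 * 3 ^ (T + 1) := by
        exact_mod_cast h
      rw [Finset.sum_sub_distrib, ← Finset.sum_div, h', Finset.sum_const, Finset.card_univ,
        nsmul_eq_mul, mul_one, hcard]
      ring) (by positivity) (by
      intro x
      have h1 := hFF x false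
      have h2 := hFF x true
      have h3 := hFF0 x false
      have h4 := hFF0 x true
      rw [abs_le]
      constructor <;> linarith)
  have hG : ∀ x, |g x| ≤ 144 * 18 ^ T := by
    intro x
    refine (hgb x).trans (le_of_eq ?_)
    rw [hcard]
    have e : (18 : ℝ) ^ T = 3 ^ T * 3 ^ T * 2 ^ T := by
      rw [← mul_pow, ← mul_pow]
      norm_num
    rw [e, pow_succ]
    ring
  have hph0 : ∀ x : XX T, ((FF x.toList [false] : ℝ) - 1 + g (mv T x false) - g x) +
      ((FF x.toList [true] : ℝ) - 1 + g (mv T x true) - g x) = 0 := by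
    intro x
    have h := hg x
    simp only [pp_apply] at h
    linarith
  have hph : ∀ (x : XX T) (b : Bool),
      |(FF x.toList [b] : ℝ) - 1 + g (mv T x b) - g x| ≤ 400 * 18 ^ T := by
    intro x b
    have h1 := hFF x b
    have h2 := hFF0 x b
    have h3 := abs_le.1 (hG (mv T x b))
    have h4 := abs_le.1 (hG x)
    rw [abs_le]
    constructor <;> linarith [h3.1, h3.2, h4.1, h4.2]
  have key := hB (XX T) (mv T) (fun x b => (FF x.toList [b] : ℝ) - 1 + g (mv T x b) - g x)
    (400 * 18 ^ T) (by positivity) hph0 hph n a ha ⟨x, hx⟩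
  refine le_trans ?_ key
  have hfin : {w : List Bool | w.length = n ∧ ∃ p ≤ n, a ≤ |Phi (mv T)
      (fun x b => (FF x.toList [b] : ℝ) - 1 + g (mv T x b) - g x) ⟨x, hx⟩ (w.take p)|}.Finite :=
    (List.finite_length_eq Bool n).subset fun w hw => hw.1
  have hsub : {w : List Bool | w.length = n ∧
      ∃ p ≤ n, a + 400 * 18 ^ T ≤ |(FF x (w.take p) : ℝ) - p|} ⊆
      {w : List Bool | w.length = n ∧ ∃ p ≤ n, a ≤ |Phi (mv T)
        (fun x b => (FF x.toList [b] : ℝ) - 1 + g (mv T x b) - g x) ⟨x, hx⟩ (w.take p)|} := by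
    rintro w ⟨hw, p, hp, h⟩
    refine ⟨hw, p, hp, ?_⟩
    rw [Phi_eq]
    have hl : (w.take p).length = p := by rw [List.length_take, hw]; exact min_eq_left hp
    rw [hl]
    have hx' : List.Vector.toList (n := T + 1) ⟨x, hx⟩ = x := rfl
    rw [hx']
    have h3 := abs_le.1 (hG (mvs T ⟨x, hx⟩ (w.take p)))
    have h4 := abs_le.1 (hG ⟨x, hx⟩)
    have h5 : |(FF x (w.take p) : ℝ) - p| ≤
        |(FF x (w.take p) : ℝ) - p + g (mvs T ⟨x, hx⟩ (w.take p)) - g ⟨x, hx⟩| +
          |g (mvs T ⟨x, hx⟩ (w.take p)) - g ⟨x, hx⟩| := by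
      have e : (FF x (w.take p) : ℝ) - p =
          ((FF x (w.take p) : ℝ) - p + g (mvs T ⟨x, hx⟩ (w.take p)) - g ⟨x, hx⟩) -
            (g (mvs T ⟨x, hx⟩ (w.take p)) - g ⟨x, hx⟩) := by ring
      conv_lhs => rw [e]
      exact abs_sub _ _
    have h6 : |g (mvs T ⟨x, hx⟩ (w.take p)) - g ⟨x, hx⟩| ≤ 288 * 18 ^ T := by
      rw [abs_le]
      constructor <;> linarith [h3.1, h3.2, h4.1, h4.2]
    linarith
  have hn := Set.ncard_le_ncard hsub hfin
  have hn' : ({w : List Bool | w.length = n ∧
      ∃ p ≤ n, a + 400 * 18 ^ T ≤ |(FF x (w.take p) : ℝ) - p|}.ncard : ℝ) ≤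
      ({w : List Bool | w.length = n ∧ ∃ p ≤ n, a ≤ |Phi (mv T)
        (fun x b => (FF x.toList [b] : ℝ) - 1 + g (mv T x b) - g x) ⟨x, hx⟩ (w.take p)|}.ncard : ℝ) := by
    exact_mod_cast hn
  exact mul_le_mul_of_nonneg_right hn' (sq_nonneg a)

end Pool.Agent.Helper33.LL
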